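import Pool.Agent.Helper62.CX.Stm
import Pool.Agent.Helper38.BL.Van

/-!
# Package `C_Van` (helper62, phase 6): the order argument
-/

set_option autoImplicit false

open Polynomial Matrix Finset

namespace Pool.Agent.Helper38.CX

open Pool.Agent.Helper62.BM Pool.Agent.Helper62.CX
open Pool.Agent.Helper38.BL (tay_X tay_C tay_derivative tay_constantCoeff tay_coeff_one deriv_dot
  deriv_mulVec)

section

variable {k : Type} [Field k] {n : ℕ}

/-- The function `y_θ`. -/
noncomputable def yf (D : Cdat k n) (x y : Fin n → PowerSeries k)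
    (θ : Matrix (Fin n) (Fin n) k[X]) : PowerSeries k :=
  y ⬝ᵥ (θ.map (tay D.c) *ᵥ x)

lemma map_wD (D : Cdat k n) (θ : Matrix (Fin n) (Fin n) k[X]) :
    (D.wD θ).map (tay D.c) =
      tay D.c D.W • (θ.map (tay D.c)).map (PowerSeries.derivative k) +
      D.M.map (tay D.c) * θ.map (tay D.c) - θ.map (tay D.c) * D.M.map (tay D.c) := by
  ext1 a b
  simp only [Cdat.wD, Matrix.map_apply, Matrix.sub_apply, Matrix.add_apply, Matrix.smul_apply,
    Matrix.mul_apply, map_sub, map_add, map_sum, map_mul, smul_eq_mul, tay_derivative]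

lemma yf_wD (D : Cdat k n) (x y : Fin n → PowerSeries k) (hx : D.HorC x) (hy : D.HorR y)
    (θ : Matrix (Fin n) (Fin n) k[X]) :
    tay D.c D.W * PowerSeries.derivative k (yf D x y θ) = yf D x y (D.wD θ) := by
  set W := tay D.c D.W with hW
  set MM := D.M.map (tay D.c) with hMM
  set T := θ.map (tay D.c) with hT
  have hx' : (W • fun a => PowerSeries.derivative k (x a)) = - (MM *ᵥ x) := by
    funext a
    have := hx a
    exact eq_neg_of_add_eq_zero_left this
  have hxi' : (W • fun a => PowerSeries.derivative k (y a)) = MMᵀ *ᵥ y := by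
    funext a
    exact hy a
  have key : PowerSeries.derivative k (yf D x y θ) =
      (fun a => PowerSeries.derivative k (y a)) ⬝ᵥ (T *ᵥ x) +
        (y ⬝ᵥ (T.map (PowerSeries.derivative k) *ᵥ x) +
          y ⬝ᵥ (T *ᵥ fun a => PowerSeries.derivative k (x a))) := by
    unfold yf
    rw [deriv_dot, deriv_mulVec, dotProduct_add]
  have key2 : W * PowerSeries.derivative k (yf D x y θ) =
      (W • fun a => PowerSeries.derivative k (y a)) ⬝ᵥ (T *ᵥ x) +
        (y ⬝ᵥ ((W • T.map (PowerSeries.derivative k)) *ᵥ x) +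
          y ⬝ᵥ (T *ᵥ (W • fun a => PowerSeries.derivative k (x a)))) := by
    rw [key, Matrix.smul_mulVec, Matrix.mulVec_smul, smul_dotProduct, dotProduct_smul,
      dotProduct_smul]
    simp only [smul_eq_mul]
    ring
  rw [key2, hxi', hx']
  unfold yf
  rw [map_wD, Matrix.sub_mulVec, Matrix.add_mulVec, dotProduct_sub, dotProduct_add,
    Matrix.mulVec_neg, dotProduct_neg, Matrix.mulVec_mulVec]
  have e3 : (MMᵀ *ᵥ y) ⬝ᵥ (T *ᵥ x) = y ⬝ᵥ ((MM * T) *ᵥ x) := by
    rw [← Matrix.mulVec_mulVec, Matrix.mulVec_transpose, Matrix.dotProduct_mulVec,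
      Matrix.dotProduct_mulVec, Matrix.dotProduct_mulVec]
  rw [e3]
  ring

lemma eval_W (D : Cdat k n) : D.W.eval D.c = 0 := by
  simp [Cdat.W]

/-- The value of `wD θ` at `c`. -/
lemma eval_wD (D : Cdat k n) (θ : Matrix (Fin n) (Fin n) k[X]) :
    (D.wD θ).map (Polynomial.eval D.c) =
      D.M.map (Polynomial.eval D.c) * θ.map (Polynomial.eval D.c) -
        θ.map (Polynomial.eval D.c) * D.M.map (Polynomial.eval D.c) := by
  ext1 a b
  simp only [Cdat.wD, Matrix.map_apply, Matrix.sub_apply, Matrix.add_apply, Matrix.smul_apply,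
    Matrix.mul_apply, Polynomial.eval_sub, Polynomial.eval_add, Polynomial.eval_finsetSum,
    Polynomial.eval_mul, smul_eq_mul, eval_W, zero_mul, zero_add]

lemma M_sq (D : Cdat k n) (her : ∑ i, D.e i * D.r i = 0) (hμ : D.μ ≠ 0)
    (hM : ∀ i j, D.μ * (D.M i j).eval D.c = D.κ * D.r i * D.e j) :
    D.M.map (Polynomial.eval D.c) * D.M.map (Polynomial.eval D.c) = 0 := by
  ext1 i j
  rw [Matrix.zero_apply]
  have h : D.μ * (D.μ * (D.M.map (Polynomial.eval D.c) * D.M.map (Polynomial.eval D.c)) i j) =
      0 := by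
    rw [Matrix.mul_apply]
    simp only [Matrix.map_apply]
    calc D.μ * (D.μ * ∑ l, (D.M i l).eval D.c * (D.M l j).eval D.c)
        = ∑ l, (D.μ * (D.M i l).eval D.c) * (D.μ * (D.M l j).eval D.c) := by
          rw [Finset.mul_sum, Finset.mul_sum]
          refine Finset.sum_congr rfl fun l _ => ?_
          ring
      _ = ∑ l, (D.κ * D.r i * (D.κ * D.e j)) * (D.e l * D.r l) := by
          refine Finset.sum_congr rfl fun l _ => ?_
          rw [hM, hM]; ring
      _ = 0 := by rw [← Finset.mul_sum, her, mul_zero]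
  have h2 := (mul_eq_zero.mp h).resolve_left hμ
  exact (mul_eq_zero.mp h2).resolve_left hμ

/-- The cube of `wD` is divisible by `X - c`. -/
lemma wD_cube (D : Cdat k n)
    (hM2 : D.M.map (Polynomial.eval D.c) * D.M.map (Polynomial.eval D.c) = 0)
    (θ : Matrix (Fin n) (Fin n) k[X]) :
    ∃ θ' : Matrix (Fin n) (Fin n) k[X],
      D.wD (D.wD (D.wD θ)) = (X - Polynomial.C D.c) • θ' := by
  have h0 : (D.wD (D.wD (D.wD θ))).map (Polynomial.eval D.c) = 0 := by
    rw [eval_wD, eval_wD, eval_wD]
    set N := D.M.map (Polynomial.eval D.c) with hN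
    set A := θ.map (Polynomial.eval D.c) with hA
    have e : N * (N * (N * A - A * N) - (N * A - A * N) * N) -
        (N * (N * A - A * N) - (N * A - A * N) * N) * N =
        (N * N) * (N * A) - 3 • (N * N) * (A * N) + 3 • (N * A) * (N * N) - A * N * (N * N) := by
      noncomm_ring
    rw [e, hM2]
    simp
  have hd : ∀ a b, (X - Polynomial.C D.c) ∣ (D.wD (D.wD (D.wD θ))) a b := by
    intro a b
    rw [Polynomial.dvd_iff_isRoot]
    exact congrFun (congrFun h0 a) b
  choose θ' hθ' using hd
  exact ⟨Matrix.of θ', by ext1 a b; rw [hθ' a b]; rfl⟩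

lemma yf_smul (D : Cdat k n) (x y : Fin n → PowerSeries k) (q : k[X])
    (θ : Matrix (Fin n) (Fin n) k[X]) : yf D x y (q • θ) = tay D.c q * yf D x y θ := by
  unfold yf
  have : (q • θ).map (tay D.c) = tay D.c q • θ.map (tay D.c) := by
    ext1 a b
    simp [Matrix.smul_apply]
  rw [this, Matrix.smul_mulVec, dotProduct_smul, smul_eq_mul]

end

theorem c_Van : C_Van := by
  intro k _ _ n D hOk x y hx hy hx0 hy0 Θ hΘ hsat hval
  obtain ⟨hw, hμ, -, -, -, her, hM⟩ := hOk
  have hM2 := M_sq D her hμ hM
  suffices H : ∀ m : ℕ, ∀ θ ∈ Θ, PowerSeries.coeff m (yf D x y θ) = 0 by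
    intro θ hθ
    have : yf D x y θ = 0 := by
      ext m
      rw [H m θ hθ, map_zero]
    exact this
  intro m
  induction m using Nat.strong_induction_on with
  | _ m ih =>
    intro θ hθ
    rcases Nat.eq_zero_or_pos m with rfl | hm
    · -- the value at `0`
      have h := hval θ hθ
      rw [PowerSeries.coeff_zero_eq_constantCoeff_apply]
      have e1 : PowerSeries.constantCoeff (yf D x y θ) =
          D.e ⬝ᵥ (θ.map (Polynomial.eval D.c) *ᵥ D.r) := by
        simp only [yf, dotProduct, Matrix.mulVec, map_sum, map_mul, hy0,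
          Matrix.map_apply, tay_constantCoeff, hx0]
      rw [e1, h]
    · -- the order argument
      set W := tay D.c D.W with hW
      have hW0 : PowerSeries.coeff 0 W = 0 := by
        rw [PowerSeries.coeff_zero_eq_constantCoeff_apply, tay_constantCoeff, eval_W]
      set ν := PowerSeries.coeff 1 W with hν
      have hν0 : ν ≠ 0 := by
        rw [hν, tay_coeff_one, Cdat.W, Polynomial.derivative_mul]
        simpa using hw
      -- the coefficient of `s ^ m` of `W y'`
      have step : ∀ η ∈ Θ, PowerSeries.coeff m (yf D x y (D.wD η)) =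
          ν * (m * PowerSeries.coeff m (yf D x y η)) := by
        intro η hη
        rw [← yf_wD D x y hx hy η, ← hW, PowerSeries.coeff_mul]
        obtain ⟨l, rfl⟩ : ∃ l, m = l + 1 := ⟨m - 1, by omega⟩
        rw [Finset.sum_eq_single (1, l)]
        · rw [PowerSeries.coeff_derivative, ← hν]
          push_cast
          ring
        · rintro ⟨a, b⟩ hab hne
          rw [Finset.HasAntidiagonal.mem_antidiagonal] at hab
          simp only at hab ⊢
          rcases Nat.eq_zero_or_pos a with rfl | ha
          · rw [hW0, zero_mul]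
          · have hb : b < l := by
              rcases Nat.lt_or_ge b l with h | h
              · exact h
              · exfalso; apply hne
                have : a = 1 := by omega
                have : b = l := by omega
                subst_vars; rfl
            rw [PowerSeries.coeff_derivative, ih (b + 1) (by omega) η hη, zero_mul, mul_zero]
        · intro h
          refine absurd (Finset.HasAntidiagonal.mem_antidiagonal.mpr ?_) h
          show 1 + l = l + 1
          omega
      obtain ⟨θ', hθ'⟩ := wD_cube D hM2 θ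
      have h1 := hΘ θ hθ
      have h2 := hΘ _ h1
      have h3 := hΘ _ h2
      have hθ'mem : θ' ∈ Θ := hsat θ' (hθ' ▸ h3)
      have hz : PowerSeries.coeff m (yf D x y (D.wD (D.wD (D.wD θ)))) = 0 := by
        rw [hθ', yf_smul]
        have : tay D.c (X - Polynomial.C D.c) = PowerSeries.X := by
          rw [map_sub, tay_X, tay_C]; ring
        rw [this]
        obtain ⟨l, rfl⟩ : ∃ l, m = l + 1 := ⟨m - 1, by omega⟩
        rw [PowerSeries.coeff_succ_X_mul]
        exact ih l (by omega) θ' hθ'mem
      rw [step _ h2, step _ h1, step _ hθ] at hz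
      have hm0 : (m : k) ≠ 0 := Nat.cast_ne_zero.mpr (by omega)
      simpa [hν0, hm0] using hz

end Pool.Agent.Helper38.CX
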